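import Mathlib
import Pool.Agent.Q164.ConvexGeom.Limit

/-!
# Almost all labeled convex geometries are primitive
-/

set_option autoImplicit false

namespace Pool.Agent.Results.MP_0c861e_co.LabeledPrimitive

open Filter Topology Pool.Agent.Q164.ConvexGeom

/-- The proportion of primitive convex geometries among the labeled ones tends to one. -/
theorem result :
    Tendsto (fun n : ℕ => (numLabeledPrimitive n : ℝ) / numLabeled n) atTop (𝓝 1) :=
  tendsto_labeled

end Pool.Agent.Results.MP_0c861e_co.LabeledPrimitive
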